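import Pool.Agent.Helper35.SL.Stm

set_option autoImplicit false

namespace Pool.Agent.Helper66.SL

open Pool.Agent.Helper35.EM Set

theorem not_root {s : Set ℂ} {t : ℂ} (ht : t ∉ M.closure s) {p : Polynomial (clF s)}
    (hp : Polynomial.aeval t p = 0) : p = 0 := by
  by_contra hne
  apply ht
  rw [mem_cl]
  have hal : IsAlgebraic (clF s) t := ⟨p, hne, hp⟩
  have hint : IsIntegral (clF s) t := isAlgebraic_iff_isIntegral.1 hal
  have h1 : (minpoly (clF s) t).degree = 1 :=
    IsAlgClosed.degree_eq_one_of_irreducible _ (minpoly.irreducible hint)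
  obtain ⟨x, hx⟩ := minpoly.mem_range_of_degree_eq_one _ _ h1
  rw [← hx]
  exact x.2

theorem common_den {N : ℕ} (q : Fin N → ℚ) :
    ∃ (D : ℕ) (n : Fin N → ℤ), 0 < D ∧ ∀ i, (D : ℚ) * q i = n i := by
  refine ⟨∏ i, (q i).den, fun i => (∏ j ∈ Finset.univ.erase i, ((q j).den : ℤ)) * (q i).num,
    Finset.prod_pos fun i _ => (q i).pos, fun i => ?_⟩
  rw [← Finset.mul_prod_erase Finset.univ _ (Finset.mem_univ i)]
  push_cast
  have h := Rat.mul_den_eq_num (q i)
  calc ((q i).den : ℚ) * (∏ j ∈ Finset.univ.erase i, ((q j).den : ℚ)) * q i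
      = (∏ j ∈ Finset.univ.erase i, ((q j).den : ℚ)) * (q i * (q i).den) := by ring
    _ = _ := by rw [h]

theorem mi : Pool.Agent.Helper35.SL.S_MI := by
  intro N t ht
  have hcast : ∀ (s : Set ℂ) (i : ℕ), ((i : ℂ) + 1) ∈ M.closure s := fun s i => by
    have := cl_ratCast s ((i : ℚ) + 1)
    simpa using this
  have hne : ∀ i : Fin N, t + ((i : ℕ) + 1 : ℂ) ≠ 0 := fun i h => by
    apply ht
    have h1 : t = -((i : ℕ) + 1 : ℂ) := by linear_combination h
    rw [h1]
    exact cl_neg (hcast ∅ i)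
  refine ⟨fun i => Complex.log (t + ((i : ℕ) + 1)), fun i => ?_, fun q hq => ?_⟩
  · rw [Complex.exp_log (hne i)]
    exact cl_add (cl_self (mem_singleton t)) (hcast _ i)
  · obtain ⟨D, n, hD, hn⟩ := common_den q
    -- the power
    have h1 : Complex.exp (∑ i, (q i : ℂ) * Complex.log (t + ((i : ℕ) + 1))) ^ D =
        ∏ i : Fin N, (t + ((i : ℕ) + 1)) ^ (n i) := by
      rw [← Complex.exp_nat_mul, Finset.mul_sum, Complex.exp_sum]
      refine Finset.prod_congr rfl fun i _ => ?_
      have h2 : (D : ℂ) * ((q i : ℂ) * Complex.log (t + ((i : ℕ) + 1))) =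
          (n i : ℂ) * Complex.log (t + ((i : ℕ) + 1)) := by
        rw [← mul_assoc]
        congr 1
        exact_mod_cast congrArg (fun x : ℚ => (x : ℂ)) (hn i)
      rw [h2, Complex.exp_int_mul, Complex.exp_log (hne i)]
    have hc : ∏ i : Fin N, (t + ((i : ℕ) + 1 : ℂ)) ^ (n i) ∈ clF ∅ := by
      rw [← mem_cl, ← h1]; exact cl_pow D hq
    obtain ⟨c, hc⟩ : ∃ c : clF ∅, (c : ℂ) = ∏ i : Fin N, (t + ((i : ℕ) + 1 : ℂ)) ^ (n i) :=
      ⟨⟨_, hc⟩, rfl⟩
    have hc0 : c ≠ 0 := by
      intro h
      rw [h] at hc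
      have : ∏ i : Fin N, (t + ((i : ℕ) + 1 : ℂ)) ^ (n i) ≠ 0 :=
        Finset.prod_ne_zero_iff.2 fun i _ => zpow_ne_zero _ (hne i)
      exact this (by rw [← hc]; rfl)
    -- the two polynomials
    set P : Polynomial (clF ∅) := ∏ i : Fin N, (Polynomial.X + Polynomial.C (((i : ℕ) : clF ∅) + 1))
      ^ (n i).toNat with hP
    set Q : Polynomial (clF ∅) := Polynomial.C c * ∏ i : Fin N,
      (Polynomial.X + Polynomial.C (((i : ℕ) : clF ∅) + 1)) ^ (-(n i)).toNat with hQ
    have hval : ∀ i : Fin N, (algebraMap (clF ∅) ℂ) (((i : ℕ) : clF ∅) + 1) = ((i : ℕ) : ℂ) + 1 := by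
      intro i; rw [map_add, map_one, map_natCast]
    have hPt : Polynomial.aeval t P = ∏ i : Fin N, (t + ((i : ℕ) + 1 : ℂ)) ^ (n i).toNat := by
      rw [hP, map_prod]
      refine Finset.prod_congr rfl fun i _ => ?_
      rw [map_pow, map_add, Polynomial.aeval_X, Polynomial.aeval_C, hval i]
    have hQt : Polynomial.aeval t Q = (c : ℂ) * ∏ i : Fin N,
        (t + ((i : ℕ) + 1 : ℂ)) ^ (-(n i)).toNat := by
      rw [hQ, map_mul, map_prod, Polynomial.aeval_C]
      congr 1
      refine Finset.prod_congr rfl fun i _ => ?_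
      rw [map_pow, map_add, Polynomial.aeval_X, Polynomial.aeval_C, hval i]
    have hPQ : P = Q := by
      have h3 : Polynomial.aeval t (P - Q) = 0 := by
        rw [map_sub, hPt, hQt, hc, ← Finset.prod_mul_distrib, sub_eq_zero]
        refine Finset.prod_congr rfl fun i _ => ?_
        rw [← zpow_natCast, ← zpow_natCast, ← zpow_add₀ (hne i)]
        congr 1
        have := Int.toNat_sub_toNat_neg (n i)
        omega
      exact sub_eq_zero.1 (not_root ht h3)
    have hev : ∀ x : clF ∅, ∏ i : Fin N, (x + (((i : ℕ) : clF ∅) + 1)) ^ (n i).toNat =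
        c * ∏ i : Fin N, (x + (((i : ℕ) : clF ∅) + 1)) ^ (-(n i)).toNat := by
      intro x
      have h4 := congrArg (Polynomial.eval x) hPQ
      rw [hP, hQ, Polynomial.eval_mul, Polynomial.eval_prod, Polynomial.eval_prod,
        Polynomial.eval_C] at h4
      simpa using h4
    have hdiff : ∀ i j : Fin N, i ≠ j →
        (-(((i : ℕ) : clF ∅) + 1) + (((j : ℕ) : clF ∅) + 1)) ≠ 0 := by
      intro i j hij h
      apply hij
      have h5 : (((j : ℕ) : clF ∅)) = ((i : ℕ) : clF ∅) := by linear_combination h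
      exact Fin.ext (Nat.cast_injective h5).symm
    have hz : ∀ i, n i = 0 := by
      intro i
      have h6 := hev (-(((i : ℕ) : clF ∅) + 1))
      rcases lt_trichotomy (n i) 0 with hlt | heq | hgt
      · exfalso
        have hR : ∏ j : Fin N, (-(((i : ℕ) : clF ∅) + 1) + (((j : ℕ) : clF ∅) + 1)) ^
            (-(n j)).toNat = 0 := by
          apply Finset.prod_eq_zero (Finset.mem_univ i)
          rw [neg_add_cancel, zero_pow (by omega)]
        rw [hR, mul_zero] at h6
        refine Finset.prod_ne_zero_iff.2 (fun j _ => ?_) h6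
        by_cases hij : i = j
        · subst hij
          rw [show (n i).toNat = 0 by omega, pow_zero]; exact one_ne_zero
        · exact pow_ne_zero _ (hdiff i j hij)
      · exact heq
      · exfalso
        have hR : ∏ j : Fin N, (-(((i : ℕ) : clF ∅) + 1) + (((j : ℕ) : clF ∅) + 1)) ^
            (n j).toNat = 0 := by
          apply Finset.prod_eq_zero (Finset.mem_univ i)
          rw [neg_add_cancel, zero_pow (by omega)]
        rw [hR] at h6
        refine mul_ne_zero hc0 (Finset.prod_ne_zero_iff.2 (fun j _ => ?_)) h6.symm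
        by_cases hij : i = j
        · subst hij
          rw [show (-(n i)).toNat = 0 by omega, pow_zero]; exact one_ne_zero
        · exact pow_ne_zero _ (hdiff i j hij)
    funext i
    have h7 := hn i
    rw [hz i] at h7
    have h8 : (D : ℚ) ≠ 0 := by exact_mod_cast hD.ne'
    simpa [h8] using h7

end Pool.Agent.Helper66.SL
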